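import Pool.Agent.Lib.MP_2795bc_gt.RS.Defs
import Pool.Agent.Lib.MP_2795bc_gt.SOL.Asm2

/-!
# MP_2795bc_gt: the statement in terms of `RS/Defs.lean`
-/

open scoped Manifold ContDiff Topology
open Bundle

noncomputable section

set_option maxSynthPendingDepth 3

namespace Pool.Agent.Lib.MP_2795bc_gt.RS

namespace Bridge

open SOL (Eu)

variable {n : ℕ}

/-- the scalar form of a field of bilinear forms -/
def sc (G : Eu n → Eu n →L[ℝ] Eu n →L[ℝ] ℝ) : Sp n → Sp n → Sp n → ℝ := fun x u v => (G x u) v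

theorem dir_eq (f : Eu n → ℝ) (x u : Eu n) :
    dir (E := Sp n) (F := ℝ) f x u = fderiv ℝ f x u := rfl

theorem dirv_eq (f : Eu n → Eu n) (x u : Eu n) :
    dir (E := Sp n) (F := Sp n) f x u = fderiv ℝ f x u := rfl

theorem fderiv_app (G : Eu n → Eu n →L[ℝ] Eu n →L[ℝ] ℝ) (x : Eu n)
    (hd : DifferentiableAt ℝ G x) (u v w : Eu n) :
    fderiv ℝ (fun y => G y v w) x u = fderiv ℝ G x u v w := by
  have h := ((ContinuousLinearMap.apply ℝ ℝ w).hasFDerivAt (x := G x v)).comp x
    (((ContinuousLinearMap.apply ℝ (Eu n →L[ℝ] ℝ) v).hasFDerivAt (x := G x)).comp x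
      hd.hasFDerivAt)
  have h2 := h.fderiv
  exact congrArg (fun T : Eu n →L[ℝ] ℝ => T u) h2

theorem dir_sc (G : Eu n → Eu n →L[ℝ] Eu n →L[ℝ] ℝ) (x : Eu n)
    (hd : DifferentiableAt ℝ G x) (u v w : Eu n) :
    dir (E := Sp n) (F := ℝ) (fun y => sc G y v w) x u = fderiv ℝ G x u v w :=
  fderiv_app G x hd u v w

theorem expand (w : Eu n) : w = ∑ j, w j • EuclideanSpace.single j (1 : ℝ) := by
  ext i
  simp [Finset.sum_apply, Pi.single_apply]

theorem form_sum (B : Eu n →L[ℝ] Eu n →L[ℝ] ℝ) (a : Fin n → ℝ) (w : Eu n) :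
    B (∑ k, a k • EuclideanSpace.single k (1 : ℝ)) w =
      ∑ j, w j * ∑ k, a k * B (EuclideanSpace.single k 1) (EuclideanSpace.single j 1) := by
  conv_lhs => rw [expand w]
  rw [map_sum, map_sum]
  refine Finset.sum_congr rfl fun j _ => ?_
  rw [map_smul, smul_eq_mul]
  congr 1
  rw [sum_apply]
  refine Finset.sum_congr rfl fun k _ => ?_
  rw [map_smul]
  rfl

theorem gram_unit (G : Eu n → Eu n →L[ℝ] Eu n →L[ℝ] ℝ) (x : Eu n)
    (hs : ∀ u v, G x u v = G x v u) (hp : ∀ u, u ≠ 0 → 0 < G x u u) :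
    IsUnit (gram (sc G) x) := by
  rw [← Matrix.mulVec_injective_iff_isUnit]
  intro z z' h
  by_contra hne
  have h0 : (gram (sc G) x).mulVec (z - z') = 0 := by
    rw [Matrix.mulVec_sub, sub_eq_zero]; exact h
  have hy : z - z' ≠ 0 := sub_ne_zero.2 hne
  set y := z - z' with hydef
  have hZ : (∑ k, y k • EuclideanSpace.single k (1 : ℝ) : Eu n) ≠ 0 := by
    intro h1
    apply hy
    funext i
    have h2 := congrArg (fun v : Eu n => v i) h1
    simpa [Finset.sum_apply, Pi.single_apply] using h2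
  have hpos := hp _ hZ
  rw [form_sum] at hpos
  have h3 : ∀ j, ∑ k, y k * G x (EuclideanSpace.single k 1) (EuclideanSpace.single j 1) = 0 := by
    intro j
    have h4 := congrFun h0 j
    rw [Matrix.mulVec, dotProduct] at h4
    refine Eq.trans ?_ h4
    refine Finset.sum_congr rfl fun k _ => ?_
    rw [hs, mul_comm]
    rfl
  simp [h3] at hpos

theorem chr_sc (G : Eu n → Eu n →L[ℝ] Eu n →L[ℝ] ℝ) (x : Eu n)
    (hd : DifferentiableAt ℝ G x) (hs : ∀ u v, G x u v = G x v u)
    (hp : ∀ u, u ≠ 0 → 0 < G x u u) (u v : Eu n) :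
    chr (sc G) x u v = SOL.chr G x u v := by
  symm
  refine SOL.NatB.chr_eq G x hp u v _ fun w => ?_
  have hk : ∀ w : Eu n, kos (sc G) x u v w =
      (1 / 2) * (fderiv ℝ G x u v w + fderiv ℝ G x v u w - fderiv ℝ G x w u v) := by
    intro w
    unfold kos
    rw [dir_sc G x hd, dir_sc G x hd, dir_sc G x hd]
    ring
  have hlin : ∀ w : Eu n, kos (sc G) x u v w =
      ∑ j, w j * kos (sc G) x u v (e j : Sp n) := by
    intro w
    have hL : kos (sc G) x u v w = ((1 / 2 : ℝ) • (fderiv ℝ G x u v + fderiv ℝ G x v u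
        - ((fderiv ℝ G x).flip u).flip v)) w := by
      rw [hk w]; rfl
    rw [hL]
    conv_lhs => rw [expand w]
    rw [map_sum]
    refine Finset.sum_congr rfl fun j _ => ?_
    rw [map_smul, smul_eq_mul]
    congr 1
    exact (hk _).symm
  rw [← hk w, hlin w]
  have hch : (chr (sc G) x u v : Eu n) = ∑ k, (∑ l, (gram (sc G) x)⁻¹ k l *
      kos (sc G) x u v (e l : Sp n)) • EuclideanSpace.single k (1 : ℝ) := rfl
  rw [hch, form_sum]
  refine Finset.sum_congr rfl fun j _ => ?_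
  congr 1
  have hu := gram_unit G x hs hp
  have hdet : IsUnit (gram (sc G) x).det := (Matrix.isUnit_iff_isUnit_det _).1 hu
  have hmul := Matrix.mul_nonsing_inv (gram (sc G) x) hdet
  calc ∑ k, (∑ l, (gram (sc G) x)⁻¹ k l * kos (sc G) x u v (e l : Sp n)) *
        G x (EuclideanSpace.single k 1) (EuclideanSpace.single j 1)
      = ∑ l, (∑ k, (gram (sc G) x) j k * (gram (sc G) x)⁻¹ k l) *
          kos (sc G) x u v (e l : Sp n) := by
        simp only [Finset.sum_mul]
        rw [Finset.sum_comm]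
        refine Finset.sum_congr rfl fun l _ => Finset.sum_congr rfl fun k _ => ?_
        rw [hs (EuclideanSpace.single k 1)]
        have : gram (sc G) x j k = G x (EuclideanSpace.single j 1) (EuclideanSpace.single k 1) := rfl
        rw [this]
        ring
    _ = ∑ l, (1 : Matrix (Fin n) (Fin n) ℝ) j l * kos (sc G) x u v (e l : Sp n) := by
        refine Finset.sum_congr rfl fun l _ => ?_
        congr 1
        rw [← hmul]
        rfl
    _ = kos (sc G) x u v (e j : Sp n) := by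
        simp [Matrix.one_apply]

/-! ### Curvature -/

section curv
variable (G : Eu n → Eu n →L[ℝ] Eu n →L[ℝ] ℝ) (hG : SOL.IsMetricOn G Set.univ)
include hG

theorem chr_sc' (x u v : Eu n) : chr (sc G) x u v = SOL.chr G x u v :=
  chr_sc G x ((hG.2.1.contDiffAt Filter.univ_mem).differentiableAt (by simp))
    (hG.2.2 x (Set.mem_univ x)).1 (hG.2.2 x (Set.mem_univ x)).2 u v

theorem riem_sc (x u v w : Eu n) : riem (sc G) x u v w = SOL.riem G x u v w := by
  have h : ∀ v w : Eu n, (fun y => chr (sc G) y v w) = fun y => SOL.chr G y v w :=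
    fun v w => funext fun y => chr_sc' G hG y v w
  unfold riem SOL.riem
  have h1 : dir (E := Sp n) (F := Sp n) (fun y => chr (sc G) y v w) x u
      = fderiv ℝ (fun y => SOL.chr G y v w) x u := by
    rw [h v w]; rfl
  have h2 : dir (E := Sp n) (F := Sp n) (fun y => chr (sc G) y u w) x v
      = fderiv ℝ (fun y => SOL.chr G y u w) x v := by
    rw [h u w]; rfl
  have h3 : chr (sc G) x u (chr (sc G) x v w) = SOL.chr G x u (SOL.chr G x v w) :=
    (congrArg (fun z => chr (sc G) x u z) (chr_sc' G hG x v w)).trans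
      (chr_sc' G hG x u (SOL.chr G x v w))
  have h4 : chr (sc G) x v (chr (sc G) x u w) = SOL.chr G x v (SOL.chr G x u w) :=
    (congrArg (fun z => chr (sc G) x v z) (chr_sc' G hG x u w)).trans
      (chr_sc' G hG x v (SOL.chr G x u w))
  exact congrArg₂ (fun a b : Eu n => a - b) (congrArg₂ (fun a b : Eu n => a + b)
    (congrArg₂ (fun a b : Eu n => a - b) h1 h2) h3) h4

theorem ric_sc (x v w : Eu n) : ric (sc G) x v w = SOL.ric G x v w := by
  unfold ric SOL.ric
  refine Finset.sum_congr rfl fun i _ => ?_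
  exact congrArg (fun z : Eu n => z i) (riem_sc G hG x (EuclideanSpace.single i 1) v w)

theorem lie_sc (V : Eu n → Eu n) (x u v : Eu n) :
    lieG (sc G) V x u v = SOL.lieG G V x u v := by
  have hd : DifferentiableAt ℝ G x :=
    (hG.2.1.contDiffAt Filter.univ_mem).differentiableAt (by simp)
  unfold lieG SOL.lieG
  have h1 : dir (E := Sp n) (F := ℝ) (fun y => sc G y u v) x (V x) = fderiv ℝ G x (V x) u v :=
    dir_sc G x hd _ u v
  exact congrArg₂ (fun a b : ℝ => a + b) (congrArg₂ (fun a b : ℝ => a + b) h1 rfl) rfl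

end curv

/-! ### Metrics on open sets -/

/-- a metric with values in continuous bilinear forms -/
def toC (G : Sp n → Sp n → Sp n → ℝ) (U : Set (Sp n)) (h : IsMetricOn G U) :
    Eu n → Eu n →L[ℝ] Eu n →L[ℝ] ℝ := fun y =>
  open Classical in
  if hy : (y : Sp n) ∈ U then
    LinearMap.toContinuousLinearMap
      ((LinearMap.toContinuousLinearMap : (Eu n →ₗ[ℝ] ℝ) ≃ₗ[ℝ] (Eu n →L[ℝ] ℝ)).toLinearMap ∘ₗ
        (LinearMap.mk₂ ℝ (fun u v : Eu n => G y u v) (h.add y hy) (h.smul y hy)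
          (fun u v w => (h.symm y hy u (v + w : Eu n)).trans ((h.add y hy v w u).trans
            (congrArg₂ (fun a b : ℝ => a + b) (h.symm y hy v u) (h.symm y hy w u))))
          (fun c u v => (h.symm y hy u (c • v : Eu n)).trans ((h.smul y hy c v u).trans
            (congrArg (fun a : ℝ => c * a) (h.symm y hy v u))))))
  else 0

theorem toC_apply (G : Sp n → Sp n → Sp n → ℝ) (U : Set (Sp n)) (h : IsMetricOn G U)
    (y : Eu n) (hy : (y : Sp n) ∈ U) (u v : Eu n) : toC G U h y u v = G y u v := by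
  unfold toC
  rw [dif_pos hy]
  rfl

theorem toC_metric (G : Sp n → Sp n → Sp n → ℝ) (U : Set (Sp n)) (h : IsMetricOn G U) :
    SOL.IsMetricOn (toC G U h) U := by
  refine ⟨h.isOpen, ?_, fun y hy => ⟨fun u v => ?_, fun u hu => ?_⟩⟩
  · refine contDiffOn_clm_apply.2 fun u => contDiffOn_clm_apply.2 fun v => ?_
    have h1 : ContDiffOn ℝ ∞ (fun y : Eu n => G y u v) U := h.smooth u v
    exact h1.congr fun y hy => toC_apply G U h y hy u v
  · rw [toC_apply G U h y hy, toC_apply G U h y hy]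
    exact h.symm y hy u v
  · rw [toC_apply G U h y hy]
    exact h.pos y hy u hu

end Bridge

open Bridge
open SOL (Eu)

/-- The statement in terms of `RS/Defs.lean`. -/
theorem bridge (h : SOL.TargetS) :
    ∃ (M : Mfd 7) (g : Metric M) (V : Field M),
      IsRicciSoliton g V 1 ∧ ¬ IsEinstein g ∧ ¬ LocKahler g ∧ ¬ LocDecomposable g := by
  obtain ⟨M, iT, iC, iM, hcpt, hT2, hconn, g, X, hX, hsol, hein, hkah, hdec, hreg⟩ := h
  let M' : Mfd 7 := @Mfd.mk 7 M iT iC iM hcpt hT2 hconn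
  let g' : Metric M' := g
  let X' : Field M' := ⟨X, hX⟩
  have hg : ∀ (p : M) (y u v : Eu 7), g'.loc p y u v = SOL.coordMetric g.inner p y u v :=
    fun p y u v => rfl
  have hg2 : ∀ p : M, g'.loc p = sc (SOL.coordMetric g.inner p) := fun p => rfl
  have hV : ∀ p : M, X'.loc p = SOL.coordField X p := fun p => rfl
  refine ⟨M', g', X', ?_, ?_, ?_, ?_⟩
  · intro p y hy u v
    have h1 := hsol p y hy u v
    have h2 := ric_sc _ (hreg p).2 y u v
    have h3 := lie_sc _ (hreg p).2 (SOL.coordField X p) y u v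
    exact (congrArg₂ (fun a b : ℝ => a + 1 / 2 * b) h2 h3).trans h1
  · rintro ⟨c, hc⟩
    refine hein ⟨c, fun p y hy u v => ?_⟩
    exact (ric_sc _ (hreg p).2 y u v).symm.trans (hc p y hy u v)
  · intro hK
    obtain ⟨p⟩ := hconn.toNonempty
    obtain ⟨U, hpU, -, J, hJ⟩ := hK p
    let J' : Eu 7 →L[ℝ] Eu 7 := LinearMap.toContinuousLinearMap
      { toFun := fun u : Eu 7 => J _ u
        map_add' := hJ.add _ hpU
        map_smul' := hJ.smul _ hpU }
    exact SOL.no_J 7 (by decide) J' (hJ.sq _ hpU)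
  · intro hD
    refine hdec fun p => ?_
    obtain ⟨k, l, hk, hl, hkl, U₁, U₂, G₁, G₂, Φ, hP, y0, hy0, hyp⟩ := hD p
    refine ⟨k, l, hk, hl, hkl, U₁, U₂, toC G₁ U₁ hP.met₁, toC G₂ U₂ hP.met₂, Φ,
      toC_metric _ _ _, toC_metric _ _ _, hP.smooth, ⟨y0, hy0, hyp⟩, fun y hy u v => ?_⟩
    rw [toC_apply G₁ U₁ hP.met₁ _ hy.1, toC_apply G₂ U₂ hP.met₂ _ hy.2]
    exact hP.isom y hy u v

end Pool.Agent.Lib.MP_2795bc_gt.RS
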