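import Mathlib

/-!
# MP_2795bc_gt: Ricci solitons on closed manifolds

The definitions used in the statement of the hand-in. Curvature is computed in charts, by the
classical formulas. A metric on an open subset of `ℝⁿ` is a function `G : Sp n → Sp n → Sp n → ℝ`;
`G x u v` is the inner product of the vectors `u`, `v` at the point `x`.
-/

open scoped Manifold ContDiff Topology
open Bundle

noncomputable section

namespace Pool.Agent.Lib.MP_2795bc_gt.RS

section gen
variable {E : Type} [NormedAddCommGroup E] [NormedSpace ℝ E]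
  {F : Type} [NormedAddCommGroup F] [NormedSpace ℝ F]

/-- The derivative of `f` at `x` in the direction `u`. -/
def dir (f : E → F) (x u : E) : F := fderiv ℝ f x u

variable {M : Type} [TopologicalSpace M] [ChartedSpace E M]
  {N : Type} [TopologicalSpace N] [ChartedSpace F N]

variable (E) in
/-- The tangent space at `x` of a manifold modelled on `E`. -/
def Tan (x : M) : Type := TangentSpace 𝓘(ℝ, E) x

variable (E F) in
/-- The differential of the map `f : M → N` at `x`, applied to the tangent vector `u`. -/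
def tmap (f : M → N) (x : M) (u : Tan E x) : Tan F (f x) :=
  mfderiv 𝓘(ℝ, E) 𝓘(ℝ, F) f x u

variable (E F) in
/-- Smoothness of maps on a set. -/
def SmoothOn (f : M → N) (s : Set M) : Prop := ContMDiffOn 𝓘(ℝ, E) 𝓘(ℝ, F) ∞ f s

/-- Smoothness of vector fields. -/
def SmoothField [IsManifold 𝓘(ℝ, E) ∞ M] (V : ∀ x : M, Tan E x) : Prop :=
  ContMDiff 𝓘(ℝ, E) 𝓘(ℝ, E).tangent ∞ (fun x => (⟨x, V x⟩ : TangentBundle 𝓘(ℝ, E) M))

variable (E) in
/-- The coordinates of `x` in the chart at `p`. -/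
def crd (p x : M) : E := extChartAt 𝓘(ℝ, E) p x

/-- The point with coordinates `y` in the chart at `p`. -/
def pnt (p : M) (y : E) : M := (extChartAt 𝓘(ℝ, E) p).symm y

variable (E) in
/-- The domain (in `E`) of the inverse of the chart at `p`. -/
def dom (p : M) : Set E := (extChartAt 𝓘(ℝ, E) p).target

variable (E M) in
/-- Smooth Riemannian metrics. -/
def RMetric [IsManifold 𝓘(ℝ, E) ∞ M] : Type :=
  ContMDiffRiemannianMetric 𝓘(ℝ, E) ∞ E (fun x : M => TangentSpace 𝓘(ℝ, E) x)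

/-- The inner product of two tangent vectors. -/
def RMetric.ip [IsManifold 𝓘(ℝ, E) ∞ M] (g : RMetric E M) (x : M) (u v : Tan E x) : ℝ :=
  ContMDiffRiemannianMetric.inner g x u v

end gen

/-- `ℝⁿ` with the Euclidean norm. -/
def Sp (n : ℕ) : Type := EuclideanSpace ℝ (Fin n)

instance instNACG (n : ℕ) : NormedAddCommGroup (Sp n) :=
  (inferInstance : NormedAddCommGroup (EuclideanSpace ℝ (Fin n)))

instance instNS (n : ℕ) : NormedSpace ℝ (Sp n) :=
  (inferInstance : NormedSpace ℝ (EuclideanSpace ℝ (Fin n)))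

/-- The standard basis. -/
def e {n : ℕ} (i : Fin n) : Sp n := EuclideanSpace.single i (1 : ℝ)

/-- The coordinates of a vector. -/
def co {n : ℕ} (u : Sp n) (i : Fin n) : ℝ := WithLp.ofLp (p := 2) (V := Fin n → ℝ) u i

section loc
variable {n : ℕ} (G : Sp n → Sp n → Sp n → ℝ)

/-- The matrix `g_ij` of `G` at `x`. -/
def gram (x : Sp n) : Matrix (Fin n) (Fin n) ℝ := fun i j => G x (e i) (e j)

/-- `(1/2) (∂_u g(v, w) + ∂_v g(u, w) - ∂_w g(u, v))`, that is, `g(∇_u v, w)`. -/
def kos (x u v w : Sp n) : ℝ :=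
  (dir (fun y => G y v w) x u + dir (fun y => G y u w) x v - dir (fun y => G y u v) x w) / 2

/-- Christoffel symbols of `G`: `chr G x u v` is the vector with the components
`∑ l, g^kl (1/2) (∂_u g(v, e l) + ∂_v g(u, e l) - ∂_l g(u, v))`, that is, `∇_u v` for constant
vectors `u` and `v`. -/
def chr (x u v : Sp n) : Sp n :=
  ∑ k, (∑ l, (gram G x)⁻¹ k l * kos G x u v (e l)) • e k

/-- Riemann curvature `R(u, v) w` of `G` at `x`. -/
def riem (x u v w : Sp n) : Sp n :=
  dir (fun y => chr G y v w) x u - dir (fun y => chr G y u w) x v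
    + chr G x u (chr G x v w) - chr G x v (chr G x u w)

/-- Ricci curvature `Ric(v, w) = tr (u ↦ R(u, v) w)` of `G` at `x`. -/
def ric (x v w : Sp n) : ℝ := ∑ i, co (riem G x (e i) v w) i

/-- Lie derivative of `G` along the vector field `V`. -/
def lieG (V : Sp n → Sp n) (x u v : Sp n) : ℝ :=
  dir (fun y => G y u v) x (V x) + G x (dir V x u) v + G x u (dir V x v)

/-- `G` is a smooth Riemannian metric on the open set `U`. -/
structure IsMetricOn (U : Set (Sp n)) : Prop where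
  isOpen : IsOpen U
  add : ∀ y ∈ U, ∀ u v w, G y (u + v) w = G y u w + G y v w
  smul : ∀ y ∈ U, ∀ (c : ℝ) (u v : Sp n), G y (c • u) v = c * G y u v
  symm : ∀ y ∈ U, ∀ u v, G y u v = G y v u
  pos : ∀ y ∈ U, ∀ u, u ≠ 0 → 0 < G y u u
  smooth : ∀ u v, ContDiffOn ℝ ∞ (fun y => G y u v) U

end loc

/-- A closed (compact, without boundary), connected smooth manifold of dimension `n`. -/
structure Mfd (n : ℕ) where
  /-- The points. -/
  pt : Type
  [top : TopologicalSpace pt]
  [charts : ChartedSpace (Sp n) pt]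
  [smooth : IsManifold 𝓘(ℝ, Sp n) ∞ pt]
  [compact : CompactSpace pt]
  [hausdorff : T2Space pt]
  [connected : ConnectedSpace pt]

attribute [instance] Mfd.top Mfd.charts Mfd.smooth Mfd.compact Mfd.hausdorff Mfd.connected

/-- A smooth Riemannian metric on `M`. -/
def Metric {n : ℕ} (M : Mfd n) : Type := RMetric (Sp n) M.pt

/-- A smooth vector field on `M`. -/
structure Field {n : ℕ} (M : Mfd n) where
  /-- The vectors. -/
  vec : ∀ x : M.pt, Tan (Sp n) x
  smooth : SmoothField vec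

section mfd
variable {n : ℕ} {M : Mfd n}

/-- The inner product of two tangent vectors. -/
def Metric.at (g : Metric M) (x : M.pt) (u v : Tan (Sp n) x) : ℝ := RMetric.ip g x u v

/-- The metric `g` in the chart at `p`. -/
def Metric.loc (g : Metric M) (p : M.pt) (y u v : Sp n) : ℝ :=
  g.at (pnt p y) (tmap (Sp n) (Sp n) (pnt p) y u) (tmap (Sp n) (Sp n) (pnt p) y v)

/-- The vector field `V` in the chart at `p`. -/
def Field.loc (V : Field M) (p : M.pt) (y : Sp n) : Sp n :=
  tmap (Sp n) (Sp n) (crd (Sp n) p) (pnt p y) (V.vec (pnt p y))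

/-- `Ric + (1/2) L_V g = lam g` in every chart. -/
def IsRicciSoliton (g : Metric M) (V : Field M) (lam : ℝ) : Prop :=
  ∀ p : M.pt, ∀ y ∈ dom (Sp n) p, ∀ u v : Sp n,
    ric (g.loc p) y u v + (1 / 2) * lieG (g.loc p) (V.loc p) y u v = lam * g.loc p y u v

/-- `Ric = c g` for a constant `c`. -/
def IsEinstein (g : Metric M) : Prop :=
  ∃ c : ℝ, ∀ p : M.pt, ∀ y ∈ dom (Sp n) p, ∀ u v : Sp n,
    ric (g.loc p) y u v = c * g.loc p y u v

/-- `J` is an orthogonal almost complex structure on the open set `U`, smooth and parallel for the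
metric `G`. -/
structure IsParallelJ (G : Sp n → Sp n → Sp n → ℝ) (U : Set (Sp n)) (J : Sp n → Sp n → Sp n) :
    Prop where
  isOpen : IsOpen U
  add : ∀ y ∈ U, ∀ u v, J y (u + v) = J y u + J y v
  smul : ∀ y ∈ U, ∀ (c : ℝ) (u : Sp n), J y (c • u) = c • J y u
  smooth : ∀ u, ContDiffOn ℝ ∞ (fun y => J y u) U
  sq : ∀ y ∈ U, ∀ u, J y (J y u) = -u
  orth : ∀ y ∈ U, ∀ u v, G y (J y u) (J y v) = G y u v
  parallel : ∀ y ∈ U, ∀ u v, dir (fun z => J z v) y u + chr G y u (J y v) = J y (chr G y u v)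

/-- Near every point there is an orthogonal parallel almost complex structure. -/
def LocKahler (g : Metric M) : Prop :=
  ∀ p : M.pt, ∃ U : Set (Sp n), crd (Sp n) p p ∈ U ∧ U ⊆ dom (Sp n) p ∧
    ∃ J : Sp n → Sp n → Sp n, IsParallelJ (g.loc p) U J

/-- `Φ : U₁ × U₂ → M` is a local isometry for the product of the metrics `G₁` on `U₁` and `G₂` on
`U₂`. -/
structure IsProductChart {k l : ℕ} (g : Metric M) (U₁ : Set (Sp k)) (U₂ : Set (Sp l))
    (G₁ : Sp k → Sp k → Sp k → ℝ) (G₂ : Sp l → Sp l → Sp l → ℝ) (Φ : Sp k × Sp l → M.pt) :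
    Prop where
  met₁ : IsMetricOn G₁ U₁
  met₂ : IsMetricOn G₂ U₂
  smooth : SmoothOn (Sp k × Sp l) (Sp n) Φ (U₁ ×ˢ U₂)
  isom : ∀ y ∈ U₁ ×ˢ U₂, ∀ u v : Sp k × Sp l,
    g.at (Φ y) (tmap (Sp k × Sp l) (Sp n) Φ y u) (tmap (Sp k × Sp l) (Sp n) Φ y v)
      = G₁ y.1 u.1 v.1 + G₂ y.2 u.2 v.2

/-- Near every point the manifold is isometric to a Riemannian product of two manifolds (open sets
`U₁`, `U₂` with metrics `G₁`, `G₂`) of positive dimensions `k` and `l`. -/
def LocDecomposable (g : Metric M) : Prop :=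
  ∀ p : M.pt, ∃ k l : ℕ, 0 < k ∧ 0 < l ∧ k + l = n ∧
    ∃ (U₁ : Set (Sp k)) (U₂ : Set (Sp l))
      (G₁ : Sp k → Sp k → Sp k → ℝ) (G₂ : Sp l → Sp l → Sp l → ℝ)
      (Φ : Sp k × Sp l → M.pt),
      IsProductChart g U₁ U₂ G₁ G₂ Φ ∧ ∃ y ∈ U₁ ×ˢ U₂, Φ y = p

end mfd

end Pool.Agent.Lib.MP_2795bc_gt.RS
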