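import Pool.Agent.Lib.MP_2795bc_gt.RS.Bridge
import Pool.Agent.Lib.MP_2795bc_gt.SOL.Main

/-!
# MP_2795bc_gt: the answer to Q1
-/

namespace Pool.Agent.Lib.MP_2795bc_gt.RS

/-- the answer to Q1 -/
theorem main :
    ∃ (M : Mfd 7) (g : Metric M) (V : Field M),
      IsRicciSoliton g V 1 ∧ ¬ IsEinstein g ∧ ¬ LocKahler g ∧ ¬ LocDecomposable g :=
  bridge (SOL.targetS_of_ODE SOL.sODE)

end Pool.Agent.Lib.MP_2795bc_gt.RS
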